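import Pool.Agent.HAR.Stmts

/-!
# BAD: all linear forms are spread (squad HAR)
-/

set_option autoImplicit false

namespace Pool.Agent.HAR.H91

open Finset Filter Topology

/-- a fraction with denominator `q` which is not an integer has distance at least `1 / q` to the
integers -/
theorem nd_frac {a q : ℕ} (ha : 0 < a) (haq : a < q) : 1 / (q : ℝ) ≤ nd ((a : ℝ) / q) := by
  have hq : (0 : ℝ) < q := by
    have : 0 < q := by omega
    exact_mod_cast this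
  unfold nd
  obtain ⟨k, hk⟩ : ∃ k : ℤ, k = round ((a : ℝ) / q) := ⟨_, rfl⟩
  rw [← hk]
  have h1 : (a : ℝ) / q - k = (((a : ℤ) - k * q : ℤ) : ℝ) / q := by
    push_cast
    field_simp
  rw [h1, abs_div, abs_of_pos hq]
  have h2 : (a : ℤ) - k * q ≠ 0 := by
    intro h
    have h3 : (a : ℤ) = k * q := by linarith
    rcases lt_trichotomy k 0 with h4 | h4 | h4
    · have : k * (q : ℤ) < 0 := mul_neg_of_neg_of_pos h4 (by omega)
      omega
    · rw [h4, zero_mul] at h3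
      omega
    · have : (q : ℤ) ≤ k * q := by nlinarith
      omega
  have h3 : (1 : ℝ) ≤ |(((a : ℤ) - k * q : ℤ) : ℝ)| := by
    rw [← Int.cast_abs]
    exact_mod_cast Int.one_le_abs h2
  gcongr

theorem bad (hSpr : SprStmt) (hPrb : PrbStmt) : BadStmt := by
  classical
  intro V ι _ _ _ _ c c' v0 u t0 K L η M Q τ T hD
  obtain ⟨hmono, -, hunion, -, hpr, -⟩ := hPrb
  -- the index set
  obtain ⟨Θ, hΘ⟩ : ∃ Θ : (∀ r : Ico t0 u, Fin (Q r)) → ℕ → ℝ, ∀ θ r,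
      Θ θ r = if h : r ∈ Ico t0 u then ((θ ⟨r, h⟩ : ℕ) : ℝ) / Q r else 0 := ⟨_, fun _ _ => rfl⟩
  obtain ⟨E, hE⟩ : ∃ E : ((∀ r : Ico t0 u, Fin (Q r)) × Fin L) → (ι → Bool) → Prop,
      ∀ a x, E a x ↔ ((∃ r : Ico t0 u, (a.1 r : ℕ) ≠ 0) ∧
        ∀ i, nd (lf c x (τ a.2 i) u t0 (Θ a.1)) < η) := ⟨_, fun _ _ => Iff.rfl⟩
  have h34 : (0 : ℝ) ≤ (3 / 4) ^ K := by positivity
  have hone : ∀ a, pr (E a) ≤ (3 / 4) ^ K := by
    rintro ⟨θ, l⟩
    by_cases hne : ∃ r : Ico t0 u, (θ r : ℕ) ≠ 0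
    · -- the largest index
      obtain ⟨S, hS⟩ : ∃ S : Finset ℕ, ∀ r, r ∈ S ↔ ∃ h : r ∈ Ico t0 u, (θ ⟨r, h⟩ : ℕ) ≠ 0 := by
        refine ⟨(Ico t0 u).filter fun r => ∃ h : r ∈ Ico t0 u, (θ ⟨r, h⟩ : ℕ) ≠ 0, fun r => ?_⟩
        rw [Finset.mem_filter]
        constructor
        · rintro ⟨-, h⟩; exact h
        · rintro ⟨h1, h2⟩; exact ⟨h1, h1, h2⟩
      have hSne : S.Nonempty := by
        obtain ⟨r, hr⟩ := hne
        exact ⟨r.1, (hS _).mpr ⟨r.2, hr⟩⟩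
      obtain ⟨t, ht⟩ : ∃ t, t = S.max' hSne := ⟨_, rfl⟩
      have htS : t ∈ S := by rw [ht]; exact S.max'_mem hSne
      obtain ⟨htI, htθ⟩ := (hS t).mp htS
      have htI' := Finset.mem_Ico.mp htI
      have hmax : ∀ r, t < r → Θ θ r = 0 := by
        intro r hr
        rw [hΘ]
        split_ifs with h
        · have h1 : (θ ⟨r, h⟩ : ℕ) = 0 := by
            by_contra h2
            have h3 := S.le_max' r ((hS r).mpr ⟨h, h2⟩)
            rw [← ht] at h3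
            omega
          rw [h1, Nat.cast_zero, zero_div]
        · rfl
      have hΘt : Θ θ t = ((θ ⟨t, htI⟩ : ℕ) : ℝ) / Q t := by
        rw [hΘ, dif_pos htI]
      have hlt : (θ ⟨t, htI⟩ : ℕ) < Q t := (θ ⟨t, htI⟩).2
      have hnd : 1 / (Q t : ℝ) ≤ nd (Θ θ t) := by
        rw [hΘt]
        exact nd_frac (Nat.pos_of_ne_zero htθ) hlt
      obtain ⟨hQ1, hQ2⟩ := hD.Q1 t htI'.1 htI'.2
      have hQpos : (0 : ℝ) < Q t := by exact_mod_cast hQ1
      have h16 : 16 * η ≤ nd (Θ θ t) * Real.sqrt (M t) := by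
        calc 16 * η = (1 / (Q t : ℝ)) * (16 * η * Q t) := by field_simp
          _ ≤ (1 / (Q t : ℝ)) * Real.sqrt (M t) := by gcongr
          _ ≤ nd (Θ θ t) * Real.sqrt (M t) := by gcongr
      have h1 := hSpr V ι c K u t0 t (τ l) (fun i => T l i t) (Θ θ) (M t) η (hD.card l)
        (hD.t0_ge.trans htI'.1) htI'.1 htI'.2 hmax (hD.M16 t htI'.1 htI'.2) hD.eta.1 hD.eta.2 h16
        (fun i => hD.big l i t htI'.1 htI'.2) (fun i => hD.sub l i t htI'.1 htI'.2)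
      refine (hmono _ _ _ fun x hx => ?_).trans h1
      exact ((hE _ _).mp hx).2
    · refine le_trans ?_ h34
      have h1 : ∀ x, ¬ E (θ, l) x := fun x hx => hne ((hE _ _).mp hx).1
      unfold pr
      have : IsEmpty {ω // E (θ, l) ω} := ⟨fun ω => h1 ω.1 ω.2⟩
      rw [Nat.card_of_isEmpty, Nat.cast_zero, zero_div]
  have hcard : (Nat.card ((∀ r : Ico t0 u, Fin (Q r)) × Fin L) : ℝ) =
      (∏ r ∈ Ico t0 u, (Q r : ℝ)) * L := by
    rw [Nat.card_eq_fintype_card, Fintype.card_prod, Fintype.card_pi, Fintype.card_fin]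
    push_cast
    congr 1
    rw [Finset.univ_eq_attach, Finset.prod_congr rfl fun r _ => by rw [Fintype.card_fin],
      Finset.prod_attach (Ico t0 u) fun r => (Q r : ℝ)]
  refine (hmono _ _ (fun x => ∃ a, E a x) ?_).trans ?_
  · rintro x ⟨θ, hθ, ⟨r₀, hr₀, hr₀'⟩, l, hl⟩
    obtain ⟨θ', hθ'⟩ : ∃ θ' : ∀ r : Ico t0 u, Fin (Q r), ∀ r, (θ' r : ℕ) = θ r :=
      ⟨fun r => ⟨θ r, hθ r r.2⟩, fun _ => rfl⟩
    refine ⟨(θ', l), (hE _ _).mpr ⟨⟨⟨r₀, hr₀⟩, by rw [hθ']; exact hr₀'⟩, fun i => ?_⟩⟩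
    have h1 : lf c x (τ l i) u t0 (Θ θ') = lf c x (τ l i) u t0 fun r => (θ r : ℝ) / Q r := by
      unfold lf
      refine Finset.sum_congr rfl fun r hr => ?_
      rw [hΘ, dif_pos hr, hθ']
    show nd (lf c x (τ l i) u t0 (Θ θ')) < η
    rw [h1]
    exact hl i
  · rw [← hcard]
    exact hunion _ _ E _ hone

end Pool.Agent.HAR.H91
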