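import Pool.Agent.HAR.Stmts

/-!
# MKV: Markov's inequality by double counting (squad HAR)
-/

set_option autoImplicit false

namespace Pool.Agent.HAR.H91

open Finset Filter Topology

theorem mkv : MkvStmt := by
  classical
  intro Ω X _ _ E p s hs hp
  have := Fintype.ofFinite Ω
  have := Fintype.ofFinite X
  unfold pr at hp ⊢
  rcases Nat.eq_zero_or_pos (Nat.card Ω) with h0 | hpos
  · rw [h0] at hp ⊢
    rw [Nat.cast_zero, div_zero]
    rcases isEmpty_or_nonempty X with hX | ⟨⟨a⟩⟩
    · rw [Nat.card_of_isEmpty]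
      simp
    · have h1 := hp a
      rw [Nat.cast_zero, div_zero] at h1
      positivity
  · have hΩ : (0 : ℝ) < Nat.card Ω := by exact_mod_cast hpos
    -- double counting
    have hdc : ∑ ω : Ω, (Nat.card {a // E a ω} : ℝ) = ∑ a : X, (Nat.card {ω // E a ω} : ℝ) := by
      have h1 : ∀ ω : Ω, (Nat.card {a // E a ω} : ℝ) = ∑ a : X, if E a ω then (1 : ℝ) else 0 := by
        intro ω
        rw [Nat.card_eq_fintype_card, Fintype.card_subtype, Finset.card_filter]
        push_cast
        rfl
      have h2 : ∀ a : X, (Nat.card {ω // E a ω} : ℝ) = ∑ ω : Ω, if E a ω then (1 : ℝ) else 0 := by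
        intro a
        rw [Nat.card_eq_fintype_card, Fintype.card_subtype, Finset.card_filter]
        push_cast
        rfl
      simp only [h1, h2]
      exact Finset.sum_comm
    have hub : ∑ a : X, (Nat.card {ω // E a ω} : ℝ) ≤ Nat.card X * p * Nat.card Ω := by
      calc ∑ a : X, (Nat.card {ω // E a ω} : ℝ) ≤ ∑ _a : X, p * Nat.card Ω := by
            refine Finset.sum_le_sum fun a _ => ?_
            have h1 := hp a
            rw [div_le_iff₀ hΩ] at h1
            exact h1
        _ = Nat.card X * p * Nat.card Ω := by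
            rw [Finset.sum_const, Finset.card_univ, nsmul_eq_mul, ← Nat.card_eq_fintype_card]
            ring
    have hlb : s * (Nat.card {ω // s < (Nat.card {a // E a ω} : ℝ)} : ℝ) ≤
        ∑ ω : Ω, (Nat.card {a // E a ω} : ℝ) := by
      have h1 : (Nat.card {ω // s < (Nat.card {a // E a ω} : ℝ)} : ℝ) =
          ∑ ω : Ω, if s < (Nat.card {a // E a ω} : ℝ) then (1 : ℝ) else 0 := by
        rw [Nat.card_eq_fintype_card, Fintype.card_subtype, Finset.card_filter]
        push_cast
        rfl
      rw [h1, Finset.mul_sum]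
      refine Finset.sum_le_sum fun ω _ => ?_
      split_ifs with h
      · rw [mul_one]; exact h.le
      · rw [mul_zero]; positivity
    rw [div_le_div_iff₀ hΩ hs]
    calc (Nat.card {ω // s < (Nat.card {a // E a ω} : ℝ)} : ℝ) * s =
        s * (Nat.card {ω // s < (Nat.card {a // E a ω} : ℝ)} : ℝ) := mul_comm _ _
      _ ≤ ∑ ω : Ω, (Nat.card {a // E a ω} : ℝ) := hlb
      _ ≤ Nat.card X * p * Nat.card Ω := by rw [hdc]; exact hub

end Pool.Agent.HAR.H91
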